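import Mathlib
import Pool.Agent.H26.Milner

namespace Pool.Agent.Results.MP_279ba3_co.SubgraphCol

open Cardinal Pool.Agent.H26.Milner

universe u

/-- The colouring number: the least cardinal `κ` such that some well-ordering of the vertices
gives every vertex fewer than `κ` earlier neighbours. -/
noncomputable def colNum {V : Type u} (G : SimpleGraph V) : Cardinal.{u} :=
  sInf {κ | ∃ r : V → V → Prop, IsWellOrder V r ∧ ∀ x, #{y | G.Adj x y ∧ r y x} < κ}

lemma set_nonempty {V : Type u} (G : SimpleGraph V) :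
    {κ | ∃ r : V → V → Prop, IsWellOrder V r ∧ ∀ x, #{y | G.Adj x y ∧ r y x} < κ}.Nonempty :=
  ⟨Order.succ #V, WellOrderingRel, inferInstance, fun _ =>
    (Cardinal.mk_set_le _).trans_lt (Order.lt_succ _)⟩

lemma lt_iff {V : Type u} (s : Set V) (m : ℕ) : #s < ((m + 1 : ℕ) : Cardinal) ↔ s.encard ≤ m := by
  rw [← Set.toENat_cardinalMk, Cardinal.toENat_le_natCast, Nat.cast_succ,
    Cardinal.lt_natCast_add_one_iff]

lemma le_iff {V : Type u} (G : SimpleGraph V) (m : ℕ) :
    colNum G ≤ ((m + 1 : ℕ) : Cardinal) ↔ Bd G m := by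
  constructor
  · intro h
    obtain ⟨r, hr, h'⟩ := csInf_mem (set_nonempty G)
    exact ⟨r, hr, fun x => (lt_iff _ _).1 ((h' x).trans_le h)⟩
  · rintro ⟨r, hr, h⟩
    exact csInf_le' ⟨r, hr, fun x => (lt_iff _ _).2 (h x)⟩

lemma zero_iff {V : Type u} (G : SimpleGraph V) : colNum G = 0 ↔ IsEmpty V := by
  constructor
  · intro h
    obtain ⟨r, -, h'⟩ := csInf_mem (set_nonempty G)
    refine ⟨fun x => ?_⟩
    have := h' x
    rw [show sInf _ = colNum G from rfl, h] at this
    exact not_lt_bot this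
  · intro h
    exact le_antisymm (csInf_le' ⟨WellOrderingRel, inferInstance, fun x => h.elim x⟩) bot_le

lemma bd_iso {V W : Type u} {G : SimpleGraph V} {H : SimpleGraph W} (e : G ≃g H) {m : ℕ}
    (h : Bd H m) : Bd G m := by
  obtain ⟨r, hr, h⟩ := h
  refine ⟨fun x y => r (e x) (e y), (RelEmbedding.preimage e.toEquiv.toEmbedding r).isWellOrder,
    fun x => ?_⟩
  refine le_trans ?_ (h (e x))
  refine Set.encard_le_encard_of_injOn (f := e) ?_ e.injective.injOn
  intro y hy
  exact ⟨e.map_adj_iff.2 hy.1, hy.2⟩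

lemma bd_sub {V : Type u} {G H : SimpleGraph V} (h : H ≤ G) (m : ℕ) :
    Bd (G.toSubgraph H h).coe m ↔ Bd H m := by
  have e : (G.toSubgraph H h).coe ≃g H := ⟨Equiv.Set.univ V, Iff.rfl⟩
  exact ⟨bd_iso e.symm, bd_iso e⟩

theorem result (V : Type u) (G : SimpleGraph V) (n : ℕ) (h : colNum G = (n : Cardinal) + 1) :
    ∃ G' : G.Subgraph, colNum G'.coe = n := by
  have eq_of : ∀ (κ : Cardinal.{u}) (k : ℕ), κ ≤ ((k + 1 : ℕ) : Cardinal) → ¬ κ ≤ k →
      κ = ((k + 1 : ℕ) : Cardinal) := by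
    intro κ k h1 h2
    refine le_antisymm h1 ?_
    rw [Nat.cast_succ]
    exact Cardinal.natCast_add_one_le_iff.2 (not_le.1 h2)
  match n with
  | 0 => exact ⟨⊥, by rw [Nat.cast_zero, zero_iff]; exact ⟨fun x => x.2⟩⟩
  | 1 =>
    refine ⟨G.toSubgraph ⊥ bot_le, eq_of _ 0 ?_ ?_⟩
    · rw [le_iff, bd_sub]
      exact ⟨WellOrderingRel, inferInstance, fun x => by simp⟩
    · rw [Nat.cast_zero, nonpos_iff_eq_zero, zero_iff]
      intro he
      have : IsEmpty V := ⟨fun x => he.elim ⟨x, trivial⟩⟩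
      rw [(zero_iff G).2 this] at h
      simp at h
      exact absurd h (by norm_num)
  | m + 2 =>
    by_contra hc
    push Not at hc
    have h1 : Bd G (m + 2) := (le_iff G _).1 (by rw [h]; push_cast; exact le_rfl)
    have h2 : Bd G m := core G m h1 fun H hH hb => by
      by_contra hn
      apply hc (G.toSubgraph H hH)
      apply eq_of _ (m + 1)
      · rw [le_iff, bd_sub]; exact hb
      · rw [le_iff, bd_sub]; exact hn
    have h3 := (le_iff G _).2 h2
    rw [h] at h3
    norm_cast at h3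
    omega

end Pool.Agent.Results.MP_279ba3_co.SubgraphCol
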